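import Pool.Agent.H82.NTC.Pot

/-!
# Board `ntc`, row PWJ2
-/

set_option autoImplicit false

namespace Pool.NTC

open Pool.NET

theorem pwj2_thm : PWk Ke.J2 := by
  intro p e g e' g' h u _ _ _ tt _ v a s _ _ hlt
  exfalso
  have h1 : prW p e h u tt (v, Ke.J2) =
      4 * (fy p e (pv2 h u (v, Ke.J2)) + tt (pv2 h u (v, Ke.J2))) + 1 := rfl
  rw [h1] at hlt
  have h2 : (4 * (fy p e (pv2 h u (v, Ke.J2)) + tt (pv2 h u (v, Ke.J2))) + 1 -
      4 * (fy p e (pv2 h u (v, Ke.J2)) + tt (pv2 h u (v, Ke.J2))) : ℤ) = 1 := by ring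
  rw [h2, abs_one, abs_lt] at hlt
  omega

end Pool.NTC
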