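import Pool.Agent.H82.NTC.Stmts

/-!
# Board `ntc`, row XDJ2
-/

set_option autoImplicit false

namespace Pool.NTC

open Pool.NET

theorem xdj2_abs (A B d : ℤ) (h1 : A + d ≤ B ∨ A + d ≤ -B) (h2 : -A + d ≤ B ∨ -A + d ≤ -B) :
    |A| + d ≤ |B| := by
  have b1 := le_abs_self B
  have b2 := neg_le_abs B
  rcases abs_cases A with ⟨ha, _⟩ | ⟨ha, _⟩
  · rw [ha]
    rcases h1 with h | h <;> linarith
  · rw [ha]
    rcases h2 with h | h <;> linarith

theorem xdj2_thm : XDF Ke.J2 := by
  rintro p e g e' g' N N' h h' u hp hp' hN hN' hU hU' hd ⟨c, r⟩ ⟨⟨c', r'⟩, k'⟩ hv hw h1 h2 h3 h4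
  obtain ⟨q0, gq, gW, We, eM, MS⟩ := hp
  obtain ⟨_, gq', gW', We', eM', _⟩ := hp'
  have hS : 0 < p.S := by linarith
  have col : ∀ a b : ℤ, a < b → p.S * a + p.S ≤ p.S * b := fun a b hab => by
    have : 0 ≤ p.S * (b - a - 1) := mul_nonneg hS.le (by omega)
    nlinarith
  have hv1 : (c, r) ∈ N := hv.1
  have hv2 : h (c, r) := hv.2
  cases k' with
  | NW =>
    exfalso
    simp only [lo, hi, fx, nx2] at h1 h2
    rcases lt_trichotomy c' c with hc | hc | hc
    · have := col _ _ hc; linarith
    · subst hc; linarith
    · rcases lt_trichotomy c' (c + 1) with hc2 | hc2 | hc2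
      · omega
      · subst hc2; linarith
      · have := col _ _ hc2; linarith
  | SE =>
    exfalso
    simp only [lo, hi, fx, nx2] at h1 h2
    rcases lt_trichotomy c' c with hc | hc | hc
    · have := col _ _ hc; linarith
    · subst hc; linarith
    · have := col _ _ hc; linarith
  | T =>
    exfalso
    simp only [lo, hi, fx, nx2] at h1 h2
    rcases lt_trichotomy c' c with hc | hc | hc
    · have := col _ _ hc; linarith
    · subst hc; linarith
    · have := col _ _ hc; linarith
  | B =>
    exfalso
    simp only [lo, hi, fx, nx2] at h1 h2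
    rcases lt_trichotomy c' c with hc | hc | hc
    · have := col _ _ hc; linarith
    · subst hc; linarith
    · rcases lt_trichotomy c' (c + 1) with hc2 | hc2 | hc2
      · omega
      · subst hc2; linarith
      · have := col _ _ hc2; linarith
  | R =>
    simp only [lo, hi, fx, nx2, jl, jh, fy] at h1 h2 h3 h4
    rcases lt_trichotomy c' c with hc | hc | hc
    · have := col _ _ hc; linarith
    swap
    · have := col _ _ hc; linarith
    rcases lt_trichotomy r' r with hr | hr | hr
    · have := col _ _ hr; linarith
    swap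
    · have := col _ _ hr; linarith
    subst hc
    subst hr
    have hd1 : 4 * e ≤ e' ∧ g' + 10 * p.q ≤ g := by
      rcases hd with hd | hd
      · exact hd
      · exfalso; linarith [hd.1]
    refine ⟨hd1, ⟨(c', r'), hv1, hw.1⟩, ?_, fun t => ?_⟩
    · simp only [prM, fx, nx2]
      apply xdj2_abs
      · left; linarith
      · left; linarith
    · simp only [prW, fy, pv2]
      apply xdj2_abs
      · right; linarith [hd1.1]
      · right; linarith [hd1.1]
  | L =>
    simp only [lo, hi, fx, nx2, jl, jh, fy] at h1 h2 h3 h4
    rcases lt_trichotomy c' (c + 1) with hc | hc | hc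
    · have := col _ _ hc; linarith
    swap
    · have := col _ _ hc; linarith
    rcases lt_trichotomy r' r with hr | hr | hr
    · have := col _ _ hr; linarith
    swap
    · have := col _ _ hr; linarith
    subst hc
    subst hr
    have hd1 : 4 * e ≤ e' ∧ g' + 10 * p.q ≤ g := by
      rcases hd with hd | hd
      · exact hd
      · exfalso; linarith [hd.1]
    refine ⟨hd1, ⟨(c + 1, r'), (hN _ hv2).2, hw.1⟩, ?_, fun t => ?_⟩
    · simp only [prM, fx, nx2]
      apply xdj2_abs
      · right; linarith
      · right; linarith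
    · simp only [prW, fy, pv2]
      apply xdj2_abs
      · left; linarith [hd1.1]
      · left; linarith [hd1.1]
  | J1 =>
    exfalso
    simp only [lo, hi, fx, nx2, jl, jh, fy] at h1 h2 h3 h4
    rcases lt_trichotomy r' r with hr | hr | hr
    · have := col _ _ hr; linarith
    · subst hr; linarith
    · have := col _ _ hr; linarith
  | J2 =>
    exfalso
    simp only [lo, hi, fx, nx2, jl, jh, fy] at h1 h2 h3 h4
    rcases lt_trichotomy r' r with hr | hr | hr
    · have := col _ _ hr; linarith
    · subst hr; rcases hd with hd | hd <;> linarith [hd.1]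
    · have := col _ _ hr; linarith
  | J3 =>
    exfalso
    simp only [lo, hi, fx, nx2, jl, jh, fy] at h1 h2 h3 h4
    rcases lt_trichotomy r' r with hr | hr | hr
    · have := col _ _ hr; linarith
    · subst hr; rcases hd with hd | hd <;> linarith [hd.1]
    · have := col _ _ hr; linarith
  | J4 =>
    exfalso
    simp only [lo, hi, fx, nx2, jl, jh, fy] at h1 h2 h3 h4
    rcases lt_trichotomy r' r with hr | hr | hr
    · have := col _ _ hr; linarith
    · subst hr; linarith
    · have := col _ _ hr; linarith

end Pool.NTC
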